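import Pool.Agent.H64.EK.Targets

/-!
Row XPZ of ekm_modules: the symmetrizer and the antisymmetrizer.
-/

set_option autoImplicit false

open Matrix Pool.Agent.H64.CC Pool.Agent.H2.NL Pool.Agent.H2.KM Pool.Agent.H64.EV Pool.Agent.H64.EK

namespace Pool.Agent.H33.EK

theorem xpz_sg_sq {K : Type} [Field K] (p : Bool) : sg K p * sg K p = 1 := by
  unfold sg
  split_ifs <;> simp

theorem xpz_sg_pow {K : Type} [Field K] (p : Bool) (i : ℕ) : sg K p ^ i * sg K p ^ i = 1 := by
  rw [← mul_pow, xpz_sg_sq, one_pow]

theorem xpz_twl_sq {K : Type} [Field K] {I : Type} (o : I → Bool) :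
    ∀ (w : List I) (i : ℕ), twl K o i w * twl K o i w = 1
  | [], i => by simp [twl]
  | a :: w, i => by
    have h1 := xpz_twl_sq (K := K) o w (i + 1)
    have h2 := xpz_sg_pow (K := K) (o a) i
    show sg K (o a) ^ i * twl K o (i + 1) w * (sg K (o a) ^ i * twl K o (i + 1) w) = 1
    calc _ = (sg K (o a) ^ i * sg K (o a) ^ i) * (twl K o (i + 1) w * twl K o (i + 1) w) := by ring
      _ = 1 := by rw [h1, h2, one_mul]

/-- the sign of an exchange for the opposite parity -/
theorem xpz_sgx {K : Type} [Field K] {I : Type} (o : I → Bool) :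
    ∀ (j : ℕ) (w : List I) (i : ℕ), j + 2 ≤ w.length →
      sgx K o j w * twl K o i (ex j w) = - (twl K o i w * sgx K (fo o) j w)
  | 0, a :: b :: l, i, _ => by
    show ks K (o a) (o b) * (sg K (o b) ^ i * (sg K (o a) ^ (i + 1) * twl K o (i + 1 + 1) l)) =
      - (sg K (o a) ^ i * (sg K (o b) ^ (i + 1) * twl K o (i + 1 + 1) l) *
        ks K (!o a) (!o b))
    have key : ks K (o a) (o b) * sg K (o a) = - (sg K (o b) * ks K (!o a) (!o b)) := by
      unfold ks sg
      cases o a <;> cases o b <;> simp
    calc _ = (ks K (o a) (o b) * sg K (o a)) * (sg K (o b) ^ i * sg K (o a) ^ i *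
          twl K o (i + 1 + 1) l) := by ring
      _ = _ := by rw [key]; ring
  | 0, [a], i, h => by simp at h
  | 0, [], i, h => by simp at h
  | j + 1, a :: l, i, h => by
    have h1 := xpz_sgx (K := K) o j l (i + 1) (by simp at h; omega)
    show sgx K o j l * (sg K (o a) ^ i * twl K o (i + 1) (ex j l)) =
      - (sg K (o a) ^ i * twl K o (i + 1) l * sgx K (fo o) j l)
    calc _ = sg K (o a) ^ i * (sgx K o j l * twl K o (i + 1) (ex j l)) := by ring
      _ = _ := by rw [h1]; ring
  | j + 1, [], i, h => by simp at h

theorem xpz_sgw {K : Type} [Field K] {I : Type} (o : I → Bool) :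
    ∀ w : List I, sgw K o w = (-1) ^ w.length * sgw K (fo o) w
  | [] => by simp [sgw]
  | a :: w => by
    have h1 := xpz_sgw (K := K) o w
    have h2 : sg K (o a) = - sg K (fo o a) := by
      unfold sg fo
      cases o a <;> simp
    have h3 : sgw K o (a :: w) = sg K (o a) * sgw K o w := by simp [sgw]
    have h4 : sgw K (fo o) (a :: w) = sg K (fo o a) * sgw K (fo o) w := by simp [sgw]
    rw [h3, h4, h1, h2, List.length_cons, pow_succ]
    ring

theorem pf_XPZ (hXPS : T_XPS) (hSPZ : T_SPZ) (hSPT : T_SPT) (hFLP : T_FLP) : T_XPZ := by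
  intro K _ _ I _ _ o η ω A hA h1 h2 hη z hz n
  have hone : ∀ a b : I, (1 : Matrix I I K) a b ≠ 0 → o a = o b := by
    intro a b hab
    by_contra hne
    exact hab (Matrix.one_apply_ne fun h => hne (by rw [h]))
  have hX := hXPS K I I o o (1 : Matrix I I K) hone
  rcases hz with rfl | rfl
  · have e : Xp (1 : K) o (1 : Matrix I I K) n = Sp o 1 n := by
      ext u v
      exact (hX u.1 v.1).1
    obtain ⟨k1, k2, k3⟩ := hSPZ K I o η ω A hA h1 h2 hη n
    rw [e]
    refine ⟨k1, fun j _ => ?_, k3, ?_⟩
    · rw [one_smul]
      exact k2 j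
    · calc ∑ u : List.Vector I n, sgw K o u.1 * xp (1 : K) o (1 : Matrix I I K) u.1 u.1
          = ∑ u : List.Vector I n, sgw K o u.1 * sp o (1 : Matrix I I K) u.1 u.1 := by
            refine Finset.sum_congr rfl fun u _ => ?_
            rw [(hX u.1 u.1).1]
        _ = _ := hSPT K I o n
        _ = _ := by
            refine Finset.prod_congr rfl fun k _ => ?_
            rw [one_mul]
  · obtain ⟨hC, hop⟩ := hFLP K I o η ω A hη hA
    have m1 : feta o η * fom o ω = 1 := by
      ext a c
      rw [Matrix.mul_apply]
      calc ∑ b, feta o η a b * fom o ω b c = sg K (o a) * (∑ b, η a b * ω b c) * sg K (o c) := by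
            rw [Finset.mul_sum, Finset.sum_mul]
            refine Finset.sum_congr rfl fun b _ => ?_
            show sg K (o a) * η a b * (ω b c * sg K (o c)) = _
            ring
        _ = sg K (o a) * (1 : Matrix I I K) a c * sg K (o c) := by
            rw [← Matrix.mul_apply, h1]
        _ = (1 : Matrix I I K) a c := by
            by_cases hac : a = c
            · subst hac
              rw [Matrix.one_apply_eq, mul_one, xpz_sg_sq]
            · rw [Matrix.one_apply_ne hac]
              ring
    have m2 : fom o ω * feta o η = 1 := by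
      ext a c
      rw [← h2, Matrix.mul_apply, Matrix.mul_apply]
      refine Finset.sum_congr rfl fun b _ => ?_
      show ω a b * sg K (o b) * (sg K (o b) * η b c) = ω a b * η b c
      calc _ = ω a b * η b c * (sg K (o b) * sg K (o b)) := by ring
        _ = _ := by rw [xpz_sg_sq, mul_one]
    have m3 : ∀ a b, feta o η a b ≠ 0 → fo o a = fo o b := by
      intro a b hab
      have : η a b ≠ 0 := fun h => hab (by show sg K (o a) * η a b = 0; rw [h, mul_zero])
      show (!o a) = (!o b)
      rw [hη a b this]
    obtain ⟨k1, k2, t', ht', k3⟩ := hSPZ K I (fo o) (feta o η) (fom o ω) (fA o A) hC m1 m2 m3 n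
    set D : Matrix (List.Vector I n) (List.Vector I n) K :=
      Matrix.diagonal (fun u : List.Vector I n => twl K o 0 u.1) with hD
    set S' : Matrix (List.Vector I n) (List.Vector I n) K := Sp (fo o) (1 : Matrix I I K) n with hS'
    have hDD : D * D = 1 := by
      rw [hD, Matrix.diagonal_mul_diagonal, ← Matrix.diagonal_one]
      congr 1
      funext u
      exact xpz_twl_sq o u.1 0
    have e : Xp (-1 : K) o (1 : Matrix I I K) n = D * S' * D := by
      ext u v
      rw [hD, Matrix.mul_diagonal, Matrix.diagonal_mul]
      exact (hX u.1 v.1).2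
    have hPD : ∀ j, j + 2 ≤ n → Px K o n j * D = - (D * Px K (fo o) n j) := by
      intro j hj
      ext u v
      rw [Matrix.neg_apply, hD, Matrix.mul_diagonal, Matrix.diagonal_mul]
      show (if ex j u.1 = v.1 then sgx K o j u.1 else 0) * twl K o 0 v.1 =
        - (twl K o 0 u.1 * (if ex j u.1 = v.1 then sgx K (fo o) j u.1 else 0))
      by_cases h : ex j u.1 = v.1
      · rw [if_pos h, if_pos h, ← h]
        exact xpz_sgx o j u.1 0 (by rw [u.2]; exact hj)
      · rw [if_neg h, if_neg h]
        ring
    have hDP : ∀ j, j + 2 ≤ n → D * Px K o n j = - (Px K (fo o) n j * D) := by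
      intro j hj
      have h3 : D * (Px K o n j * D) * D = D * (- (D * Px K (fo o) n j)) * D := by
        rw [hPD j hj]
      have h4 : D * (Px K o n j * D) * D = D * Px K o n j := by
        rw [Matrix.mul_assoc, Matrix.mul_assoc, hDD, Matrix.mul_one]
      have h5 : D * (- (D * Px K (fo o) n j)) * D = - (Px K (fo o) n j * D) := by
        rw [Matrix.mul_neg, Matrix.neg_mul, ← Matrix.mul_assoc D D, hDD, Matrix.one_mul]
      rw [← h4, h3, h5]
    refine ⟨?_, fun j hj => ⟨?_, ?_⟩, ?_, ?_⟩
    · rw [e]
      calc D * S' * D * (D * S' * D) = D * (S' * (D * D) * S') * D := by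
            simp only [Matrix.mul_assoc]
        _ = D * (S' * S') * D := by rw [hDD, Matrix.mul_one]
        _ = _ := by
            rw [k1, Matrix.mul_smul, Matrix.smul_mul]
    · rw [e]
      calc Px K o n j * (D * S' * D) = (Px K o n j * D) * S' * D := by
            simp only [Matrix.mul_assoc]
        _ = - (D * (Px K (fo o) n j * S') * D) := by
            rw [hPD j hj]
            simp only [Matrix.mul_assoc, Matrix.neg_mul]
        _ = _ := by
            rw [(k2 j).1]
            simp
    · rw [e]
      calc D * S' * D * Px K o n j = D * S' * (D * Px K o n j) := by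
            simp only [Matrix.mul_assoc]
        _ = - (D * (S' * Px K (fo o) n j) * D) := by
            rw [hDP j hj]
            simp only [Matrix.mul_assoc, Matrix.mul_neg]
        _ = _ := by
            rw [(k2 j).2]
            simp
    · refine ⟨fun w => twl K o 0 w * t' w, ht', ?_⟩
      have h3 := hop n t'
      rw [k3, ← hD] at h3
      rw [e, h3]
      calc op η n (fun w => twl K o 0 w * t' w) =
            (D * D) * op η n (fun w => twl K o 0 w * t' w) * (D * D) := by
            rw [hDD, Matrix.one_mul, Matrix.mul_one]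
        _ = _ := by simp only [Matrix.mul_assoc]
    · calc ∑ u : List.Vector I n, sgw K o u.1 * xp (-1 : K) o (1 : Matrix I I K) u.1 u.1
          = ∑ u : List.Vector I n, (-1) ^ n *
              (sgw K (fo o) u.1 * sp (fo o) (1 : Matrix I I K) u.1 u.1) := by
            refine Finset.sum_congr rfl fun u _ => ?_
            rw [(hX u.1 u.1).2, xpz_sgw o u.1, u.2]
            have h3 := xpz_twl_sq (K := K) o u.1 0
            calc _ = (-1) ^ n * (sgw K (fo o) u.1 * sp (fo o) (1 : Matrix I I K) u.1 u.1) *
                  (twl K o 0 u.1 * twl K o 0 u.1) := by ring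
              _ = _ := by rw [h3, mul_one]
        _ = (-1) ^ n * ∏ k ∈ Finset.range n, ((∑ a, sg K (fo o a)) + (k : K)) := by
            rw [← Finset.mul_sum, hSPT K I (fo o) n]
        _ = ∏ k ∈ Finset.range n, ((-1) * ((∑ a, sg K (fo o a)) + (k : K))) := by
            rw [Finset.prod_mul_distrib, Finset.prod_const, Finset.card_range]
        _ = _ := by
            have h3 : ∑ a, sg K (o a) = - ∑ a, sg K (fo o a) := by
              rw [← Finset.sum_neg_distrib]
              refine Finset.sum_congr rfl fun a _ => ?_
              unfold sg fo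
              cases o a <;> simp
            refine Finset.prod_congr rfl fun k _ => ?_
            rw [h3]
            ring

end Pool.Agent.H33.EK
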